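import Pool.Agent.U707.LI.Defs

/-!
# Abelian varieties of `GL_2`-type and arbitrary Hilbert cusp forms

`A` is an abelian variety of `GL_2(M)`-type over the number field `K` (for instance totally real),
`α_v` in `M` the trace of the Frobenius element at `v`, and `V_t` the two-dimensional `p`-adic
representations of `A`, `t` an embedding of `M` in `ℚ̄_p`. They are irreducible on every open
subgroup, and pairwise not isomorphic on any open subgroup (all the endomorphisms of `A` over the
algebraic closure are in `M`). `f_i` are finitely many Hecke eigensystems with coefficients in a field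
`F`, with eigenvalues `a_i(v)` and two-dimensional `p`-adic representations (for instance those of
Hilbert newforms of any weights, levels and characters). If the `v`-th coefficient
`Tr α_v` of `L(A, s)` is `∑ c_i a_i(v)`, with coefficients `c_i` in `F`, for the places `v` of a set
of positive upper density, for instance the `v`-th Fourier coefficient of a Hilbert cusp form which
is not necessarily an eigenform, then for every `t` there are an `i` with `c_i ≠ 0` and a character
`χ` of finite order with `a_i(v) = χ(Frob_v) t(α_v)` for almost all `v`. So `A` is associated to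
the newform `f_i ⊗ χ⁻¹`.

Parts of the proof are by helper140, helper784, helper187, helper612, helper94 (see
`Pool.Agent.U707.LI.All`).
-/

set_option autoImplicit false

namespace Pool.Agent.Results.MP_326854_nt.AnyHilbertForm

open NumberField IsDedekindDomain Module Pool.Agent.W401.Cheb Pool.Agent.U707 Pool.Agent.U707.LI

/-- **Modularity of abelian varieties of `GL_2`-type from arbitrary forms.** -/
theorem result {K : Type} [Field K] [NumberField K] {p : ℕ} [Fact p.Prime]
    -- the abelian variety: its traces and representations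
    {M : Type} [Field M] [NumberField M] (α : HeightOneSpectrum (𝓞 K) → M)
    (V : (M →+* PadicAlgCl p) → LI.Rep K (PadicAlgCl p)) (hV : IndependentFamily V)
    (hα : ∀ t, (V t).HasTraces fun v => t (α v))
    -- the Hecke eigensystems and their representations
    {F : Type} [Field F] [CharZero F] (τ : F →+* PadicAlgCl p) {ι : Type} [Fintype ι]
    (a : ι → HeightOneSpectrum (𝓞 K) → F) (R : ι → LI.Rep K (PadicAlgCl p))
    (hR2 : ∀ i, finrank (PadicAlgCl p) (R i).V = 2)
    (hR : ∀ i, (R i).HasTraces fun v => τ (a i v))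
    -- the relation
    (c : ι → F) {P : Set (HeightOneSpectrum (𝓞 K))} (hP : PosDensity P)
    (h : ∀ v ∈ P, ((Algebra.trace ℚ M (α v) : ℚ) : F) = ∑ i, c i * a i v)
    (t : M →+* PadicAlgCl p) :
    ∃ i, c i ≠ 0 ∧ ∃ χ : GK K →* (PadicAlgCl p)ˣ, IsTwist (R i) (V t) χ ∧
      ∃ B : Set (HeightOneSpectrum (𝓞 K)), B.Finite ∧ ∀ v ∉ B, ∀ φ, GeoFrob v φ →
        τ (a i v) = χ φ * t (α v) := by
  obtain ⟨hV2, hVi, hne⟩ := hV
  obtain ⟨B, hB, hα⟩ := hasTraces_all hα
  obtain ⟨B', hB', hR⟩ := hasTraces_all hR
  have hP' : PosDensity (P \ (B ∪ B')) :=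
    hP.mono (hB.union hB') fun v hv hvB => ⟨hv, hvB⟩
  have htrace : ∀ x : M, ∑ s : M →+* PadicAlgCl p, s x =
      ((Algebra.trace ℚ M x : ℚ) : PadicAlgCl p) := by
    intro x
    have h1 := trace_eq_sum_embeddings (K := ℚ) (L := M) (PadicAlgCl p) (x := x)
    rw [eq_ratCast] at h1
    rw [h1]
    exact Fintype.sum_equiv (RingHom.equivRatAlgHom (R := M) (S := PadicAlgCl p)) _ _
      fun s => rfl
  obtain ⟨i, hi, χ, hχ, h1, h2⟩ := conjTwist sHAAR sCHEB sTRANS sIND sTW V hVi hne R
    (fun i => τ (c i)) (fun s i => (hR2 i).trans (hV2 s).symm) hP' (by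
      rintro v ⟨hv, hvB⟩ φ hφ
      have h3 := congrArg τ (h v hv)
      rw [map_ratCast, map_sum, ← htrace] at h3
      have h4 : ∑ s, (V s).tr φ = ∑ s : M →+* PadicAlgCl p, s (α v) :=
        Finset.sum_congr rfl fun s _ => hα v (fun h => hvB (Or.inl h)) φ hφ s
      rw [h4, h3]
      refine Finset.sum_congr rfl fun i _ => ?_
      rw [map_mul, hR v (fun h => hvB (Or.inr h)) φ hφ i]) t
  rw [hV2] at h2
  refine ⟨i, fun h0 => hi (by rw [h0, map_zero]), χ, ⟨hχ, h1, h2⟩, B ∪ B', hB.union hB',
    fun v hv φ hφ => ?_⟩
  rw [← hR v (fun h => hv (Or.inr h)) φ hφ i, h1, hα v (fun h => hv (Or.inl h)) φ hφ t]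

end Pool.Agent.Results.MP_326854_nt.AnyHilbertForm
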