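import Pool.Agent.Results.MP_b583a4_nt.PotentiallyReducibleAtOddPrimes

/-!
# Totally odd representations over totally real fields which are potentially reducible on the inertia
# group of one place above an odd prime `p`

Let `F` be a totally real number field, `k / F` an abelian extension of exponent dividing `p - 1`, `p` odd,
and let `ρ` be a continuous totally odd representation of `G_F` of dimension two over a Noetherian local
ring of residue characteristic `p` (for example given by an abelian variety `A` over `F` of
`GL_2(M)`-type and a prime of `M` above `p`), unramified outside `S`, residually triangular with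
characters `ψ 0`, `ψ 1` of `Gal(k/F)`, absolutely irreducible in characteristic zero. Let `X` be a
subgroup, for example the inertia group at one prime above `p`, with `G_F = X G_k`, which detects the
characters `1`, `ψ 0 / ψ 1`, `ψ 1 / ψ 0`.

**Theorem.** If `ρ` is reducible on a subgroup of finite index of `X` (for example, if `A` has potentially
good ordinary or potentially multiplicative reduction at one place), then `ρ` is induced from a
character of the absolute Galois group of the field of `ψ 0 / ψ 1`, which is a totally imaginary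
quadratic extension of `F`.

If `k` has only one prime above `p`, and if `X` contains the inertia group at a prime above `p`, the
condition of detection for `S = {p}` is the condition for the empty set: the eigenspaces of the class group
of `k` modulo `p` for the three characters are trivial. Example: `F` the real subfield of
`k = ℚ(ζ_p)`, `p` regular, `A` with good reduction outside `p`.

So `A` is of CM type and associated to a Hilbert modular form with complex multiplication (a
classical deduction, which is not part of the formal proof).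
-/

set_option autoImplicit false

namespace Pool.Agent.Results.MP_326854_nt.OrdinaryAtOnePlace

open NumberField IsLocalRing Matrix
open scoped Pointwise
open Pool.Agent.Results.MP_f68ac8_nt.EigenspaceIrreducibility
open Pool.Agent.Results.MP_b583a4_nt.PotentiallyReducibleAtOddPrimes

/-- the number field with the absolute Galois group `B` is totally real: all involutions (complex
conjugations) of the absolute Galois group of `ℚ` lie in `B` -/
def TotallyReal (B : Subgroup AbsGal) : Prop := ∀ c : AbsGal, c * c = 1 → c ∈ B

/-- `ρ` is totally odd: the complex conjugations have the determinant `-1` -/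
def TotallyOdd {B : Subgroup AbsGal} {A : Type} [CommRing A] (ρ : B →* GL (Fin 2) A) : Prop :=
  ∀ c : B, c ≠ 1 → c * c = 1 → (ρ c : Matrix (Fin 2) (Fin 2) A).det = -1

/-- the field of the kernel of `θ` is totally imaginary: `θ` is defined and has the value `-1` at all
complex conjugations -/
def TotallyImaginary {p : ℕ} {B : Subgroup AbsGal} (θ : Character p B) : Prop :=
  ∀ c : AbsGal, c ≠ 1 → c * c = 1 → ∃ h : c ∈ B, θ ⟨c, h⟩ = -1

/-- `k` has only one prime above `p` -/
def OnePrimeAbove (p : ℕ) (C : Subgroup AbsGal) : Prop :=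
  ∀ P P' : Ideal ZBar, P.IsMaximal → P'.IsMaximal → (p : ZBar) ∈ P → (p : ZBar) ∈ P' →
    ∃ c ∈ C, c • P = P'

/-- the residual characters of a totally odd representation -/
theorem odd_ratio {p : ℕ} [hp : Fact p.Prime] {S : Set ℕ} {B C : Subgroup AbsGal} {A : Type}
    [CommRing A] [IsLocalRing A] [TopologicalSpace A] (hpA : (p : A) ∈ maximalIdeal A)
    {ψ : Fin 2 → Character p B} {ρ : B →* GL (Fin 2) A} (hρ : Admissible S C ψ ρ)
    (hodd : TotallyOdd ρ) (c : B) (hc1 : c ≠ 1) (hc : c * c = 1) : ratio ψ 0 1 c = -1 := by
  obtain ⟨M, hM⟩ := hρ.triangular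
  obtain ⟨h10, hd⟩ := hM c
  have e1 := hd 0
  have e2 := hd 1
  have e3 := h10 1 0 (by decide)
  have hdet : (basis M (ρ c)).det = -1 := by
    unfold basis
    rw [Units.val_mul, Units.val_mul, det_units_conj, hodd c hc1 hc]
  rw [det_fin_two] at hdet
  set b := basis M (ρ c) with hb
  have h4 : (((value (ψ 0) c * value (ψ 1) c + 1 : ℕ) : A)) ∈ maximalIdeal A := by
    have e4 : (((value (ψ 0) c * value (ψ 1) c + 1 : ℕ) : A)) =
        b 0 1 * b 1 0 - (b 0 0 - (value (ψ 0) c : A)) * b 1 1 -
          (value (ψ 0) c : A) * (b 1 1 - (value (ψ 1) c : A)) := by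
      push_cast
      linear_combination hdet
    rw [e4]
    exact Ideal.sub_mem _ (Ideal.sub_mem _ (Ideal.mul_mem_left _ _ e3)
      (Ideal.mul_mem_right _ _ e1)) (Ideal.mul_mem_left _ _ e2)
  have h5 := dvd_of_mem hp.out hpA h4
  have h6 : ((ψ 0 c : (ZMod p)ˣ) : ZMod p) * ((ψ 1 c : (ZMod p)ˣ) : ZMod p) = -1 := by
    have h7 := (ZMod.natCast_eq_zero_iff _ p).2 h5
    push_cast at h7
    unfold value at h7
    rw [ZMod.natCast_zmod_val, ZMod.natCast_zmod_val] at h7
    exact eq_neg_of_add_eq_zero_left h7
  have h8 : ψ 0 c * ψ 1 c = -1 := by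
    apply Units.ext
    rw [Units.val_mul, Units.val_neg, Units.val_one]
    exact h6
  have h9 : ψ 1 c * ψ 1 c = 1 := by rw [← map_mul, hc, map_one]
  have h10 : (ψ 1 c)⁻¹ = ψ 1 c := inv_eq_of_mul_eq_one_right h9
  show ψ 0 c * (ψ 1 c)⁻¹ = -1
  rw [h10, h8]

/-- Totally odd irreducible representations of the absolute Galois group of a totally real field `F`,
residually triangular, which are reducible on a subgroup of finite index of a subgroup `X` which detects
the quotients of the residual characters, are induced from the totally imaginary quadratic extension of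
`F` given by the quotient of the residual characters. -/
theorem result :
    (∀ (p : ℕ) [Fact p.Prime], p ≠ 2 → ∀ (S : Set ℕ) (B C : Subgroup AbsGal), Setting p B C →
      TotallyReal B → ∀ (ψ : Fin 2 → Character p B) (X : Subgroup AbsGal), Detecting p S B C ψ X →
      ∀ (A : Type) [CommRing A] [IsLocalRing A] [IsNoetherianRing A] [TopologicalSpace A],
      IsAdic (maximalIdeal A) → (p : A) ∈ maximalIdeal A →
      ∀ ρ : B →* GL (Fin 2) A, Admissible S C ψ ρ → TotallyOdd ρ →
      ∀ (E : Type) [Field E] [Algebra A E] [IsAlgClosed E] [CharZero E], Irreducible E ρ →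
      ∀ T, FinIndex T (X ⊓ B) → ReducibleOn E ρ T →
        Dihedral E (ratio ψ 0 1) ρ ∧ TotallyImaginary (ratio ψ 0 1)) ∧
    (∀ (p : ℕ) (B C : Subgroup AbsGal) (ψ : Fin 2 → Character p B), OnePrimeAbove p C →
      ∀ P : Ideal ZBar, P.IsMaximal → (p : ZBar) ∈ P → ∀ X, inertia P ≤ X →
      Detecting p ∅ B C ψ X → Detecting p {p} B C ψ X) := by
  refine ⟨fun p _ hp2 S B C hSet hreal ψ X hX A _ _ _ _ hA hpA ρ hρ hodd E _ _ _ _ hirr T hT hred =>
    ⟨dichotomy hp2 hSet A hA hpA ψ ρ hρ E hirr X hX T hT hred, fun c hc1 hc =>
      ⟨hreal c hc, odd_ratio hpA hρ hodd ⟨c, hreal c hc⟩ (fun h => hc1 (congrArg Subtype.val h))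
        (Subtype.ext hc)⟩⟩, ?_⟩
  intro p B C ψ hC P hP hpP X hX hdet
  refine ⟨hdet.surjective, fun a b f hf h1 h2 h3 => hdet.detects a b f hf (fun τ hτ => ?_) h2 h3⟩
  obtain ⟨P', hP', -, hτ⟩ := hτ
  by_cases hp : (p : ZBar) ∈ P'
  · obtain ⟨c, hc, hcP⟩ := hC P P' hP hP' hpP hp
    exact Pool.Agent.U172.FM.one_prime f hc hcP (fun τ hτ => h2 τ (hX hτ)) τ hτ
  · exact h1 τ ⟨P', hP', fun l hl => by rw [Set.mem_singleton_iff] at hl; rwa [hl], hτ⟩

end Pool.Agent.Results.MP_326854_nt.OrdinaryAtOnePlace
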